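import Mathlib

/-!
# Cumulative subtraction games: outcomes and discrepancies have eventual period `2 max S`

Full answer (positive): for every finite nonempty set `S` of positive integers with maximum `m`
there is a heap size `h₀` such that for all `h ≥ h₀` and all tie-breaking settings the move `m` is
a choice of the player to move and both totals satisfy `o (h + 2 m) = o h + m`. In particular the
discrepancies `o_A - o_F` are eventually periodic with period `2 m`.

Idea: answering every move with `m` shows `o² (h) ≥ m ⌊h / 2m⌋` and `o¹ (h) ≥ m ⌊(h + m) / 2m⌋`.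
Since the totals add up to at most `h`, on `h = 2 m k + m + i`, `i < m`, a move `s ≤ i` is worse
than `m`. A move `s > i` leads to `2 m k + i'`, `i' = i + m - s`; there the player to move can
again use `s`, either directly inside the half block or after steps of length `m - s` in the
residue, which gives the opponent too little. So by induction on the residue from above `m` is the
only optimal move on `2 m k + m + i` for `k ≥ m`. Consequently the totals on `2 m k + i` are
monotone in `k` up to the linear term, and bounded.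
-/

namespace Pool.Agent.Results.MP_e9de46_co.PeriodTwoMaxH29

/-- Tie-breaking conventions: friendly or antagonistic. -/
inductive Conv
  | F
  | A
  deriving DecidableEq

instance : Fintype Conv := ⟨{Conv.F, Conv.A}, fun c => by cases c <;> simp⟩

/-- The choice of the mover among a finite set of candidate pairs (own total, total of the
opponent): first the largest first coordinate `a`, then among the candidates with first
coordinate `a` the largest (convention `F`) or smallest (convention `A`) second coordinate.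
For the empty set of candidates the value is `(0, 0)`. -/
noncomputable def best (c : Conv) (T : Finset (ℕ × ℕ)) : ℕ × ℕ :=
  match c with
  | Conv.F => (T.sup Prod.fst, (T.filter fun p => p.1 = T.sup Prod.fst).sup Prod.snd)
  | Conv.A => (T.sup Prod.fst, sInf {b : ℕ | (T.sup Prod.fst, b) ∈ T})

/-- The pair of totals (player to move, other player) on the heap `h`, if the player to move has
the convention `c` and the other one the convention `d`. The candidates are the pairs
`(s + o^2_{dc}(h - s), o^1_{dc}(h - s))` for the legal moves `s`. -/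
noncomputable def out (S : Finset ℕ) (c d : Conv) (h : ℕ) : ℕ × ℕ :=
  best c (((S.filter fun s => 1 ≤ s ∧ s ≤ h).attach).image fun s =>
    (s.1 + (out S d c (h - s.1)).2, (out S d c (h - s.1)).1))
termination_by h
decreasing_by
  all_goals
    have := (Finset.mem_filter.1 s.2).2
    omega

theorem best_empty (c : Conv) : best c ∅ = (0, 0) := by
  cases c <;> simp [best]

theorem le_best (c : Conv) (T : Finset (ℕ × ℕ)) {p : ℕ × ℕ} (hp : p ∈ T) :
    p.1 ≤ (best c T).1 := by
  cases c <;> exact Finset.le_sup (f := Prod.fst) hp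

theorem best_mem (c : Conv) (T : Finset (ℕ × ℕ)) (hT : T.Nonempty) : best c T ∈ T := by
  obtain ⟨p, hp, hpa⟩ := Finset.exists_mem_eq_sup T hT Prod.fst
  cases c
  · have hne : (T.filter fun p => p.1 = T.sup Prod.fst).Nonempty :=
      ⟨p, Finset.mem_filter.2 ⟨hp, hpa.symm⟩⟩
    obtain ⟨q, hq, hqb⟩ := Finset.exists_mem_eq_sup _ hne Prod.snd
    obtain ⟨hq1, hq2⟩ := Finset.mem_filter.1 hq
    have : best Conv.F T = q := by
      unfold best
      simp only
      rw [hqb, ← hq2]
    rw [this]
    exact hq1
  · have hne : {b : ℕ | (T.sup Prod.fst, b) ∈ T}.Nonempty := ⟨p.2, by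
      show (T.sup Prod.fst, p.2) ∈ T
      rw [hpa]; exact hp⟩
    exact Nat.sInf_mem hne

theorem best_snd (c : Conv) (T : Finset (ℕ × ℕ)) {q : ℕ × ℕ} (hq : q ∈ T)
    (hq1 : q.1 = (best c T).1) :
    (c = Conv.F → q.2 ≤ (best c T).2) ∧ (c = Conv.A → (best c T).2 ≤ q.2) := by
  cases c
  · refine ⟨fun _ => ?_, fun h => absurd h (by decide)⟩
    exact Finset.le_sup (f := Prod.snd) (Finset.mem_filter.2 ⟨hq, hq1⟩)
  · refine ⟨fun h => absurd h (by decide), fun _ => ?_⟩
    apply Nat.sInf_le
    show (T.sup Prod.fst, q.2) ∈ T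
    have : q.1 = T.sup Prod.fst := hq1
    rw [← this]
    exact hq

/-- The candidate pairs. -/
noncomputable def cand (S : Finset ℕ) (c d : Conv) (h : ℕ) : Finset (ℕ × ℕ) :=
  ((S.filter fun s => 1 ≤ s ∧ s ≤ h).attach).image fun s =>
    (s.1 + (out S d c (h - s.1)).2, (out S d c (h - s.1)).1)

theorem out_eq (S : Finset ℕ) (c d : Conv) (h : ℕ) : out S c d h = best c (cand S c d h) := by
  rw [out, cand]

theorem mem_cand (S : Finset ℕ) (c d : Conv) (h : ℕ) (p : ℕ × ℕ) :
    p ∈ cand S c d h ↔ ∃ s ∈ S, 1 ≤ s ∧ s ≤ h ∧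
      p = (s + (out S d c (h - s)).2, (out S d c (h - s)).1) := by
  unfold cand
  rw [Finset.mem_image]
  constructor
  · rintro ⟨⟨s, hs⟩, -, rfl⟩
    obtain ⟨h1, h2, h3⟩ := Finset.mem_filter.1 hs
    exact ⟨s, h1, h2, h3, rfl⟩
  · rintro ⟨s, h1, h2, h3, rfl⟩
    exact ⟨⟨s, Finset.mem_filter.2 ⟨h1, h2, h3⟩⟩, Finset.mem_attach _ _, rfl⟩

section

variable (S : Finset ℕ) (m : ℕ) (hmS : m ∈ S) (hm1 : 1 ≤ m) (hmax : ∀ s ∈ S, s ≤ m)
  (hpos : ∀ s ∈ S, 1 ≤ s)

include hpos in
/-- A legal move gives a lower bound for the total of the mover. -/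
theorem le_out {s h : ℕ} (hs : s ∈ S) (hsh : s ≤ h) (c d : Conv) :
    s + (out S d c (h - s)).2 ≤ (out S c d h).1 := by
  rw [out_eq S c d h]
  exact le_best c _ ((mem_cand S c d h _).2 ⟨s, hs, hpos s hs, hsh, rfl⟩)

include hpos in
/-- The tie-breaking rule. -/
theorem tie {s h : ℕ} (hs : s ∈ S) (hsh : s ≤ h) (c d : Conv)
    (he : s + (out S d c (h - s)).2 = (out S c d h).1) :
    (c = Conv.F → (out S d c (h - s)).1 ≤ (out S c d h).2) ∧
      (c = Conv.A → (out S c d h).2 ≤ (out S d c (h - s)).1) := by
  rw [out_eq S c d h] at he ⊢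
  exact best_snd c _ ((mem_cand S c d h _).2 ⟨s, hs, hpos s hs, hsh, rfl⟩) he

include hmS hm1 in
/-- On heaps of size at least `m` some move is chosen. -/
theorem out_move {h : ℕ} (hh : m ≤ h) (c d : Conv) :
    ∃ s ∈ S, 1 ≤ s ∧ s ≤ h ∧
      (out S c d h).1 = s + (out S d c (h - s)).2 ∧ (out S c d h).2 = (out S d c (h - s)).1 := by
  have hne : (cand S c d h).Nonempty :=
    ⟨_, (mem_cand S c d h _).2 ⟨m, hmS, hm1, hh, rfl⟩⟩
  have hb := best_mem c _ hne
  rw [← out_eq, mem_cand] at hb
  obtain ⟨s, h1, h2, h3, h4⟩ := hb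
  exact ⟨s, h1, h2, h3, by rw [h4], by rw [h4]⟩

/-- The totals add up to at most `h`. -/
theorem total (h : ℕ) : ∀ c d : Conv, (out S c d h).1 + (out S c d h).2 ≤ h := by
  induction h using Nat.strong_induction_on with
  | _ h ih =>
    intro c d
    rcases (cand S c d h).eq_empty_or_nonempty with he | hne
    · rw [out_eq, he, best_empty]
      simp
    · have hb := best_mem c _ hne
      rw [← out_eq, mem_cand] at hb
      obtain ⟨s, h1, h2, h3, h4⟩ := hb
      have := ih (h - s) (by omega) d c
      rw [h4]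
      simp only
      omega

include hmS hm1 hmax hpos in
/-- Lower bounds for the totals: answer every move with `m`. -/
theorem lower (h : ℕ) : ∀ (c d : Conv) (k : ℕ),
    (2 * (m * k) ≤ h → m * k ≤ (out S c d h).2) ∧
      (2 * (m * k) + m ≤ h → m * k + m ≤ (out S c d h).1) := by
  induction h using Nat.strong_induction_on with
  | _ h ih =>
    intro c d k
    constructor
    · intro hk
      rcases Nat.eq_zero_or_pos k with h0 | h0
      · subst h0
        simp
      · obtain ⟨k', rfl⟩ : ∃ k', k = k' + 1 := ⟨k - 1, by omega⟩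
        rw [Nat.mul_succ] at hk ⊢
        obtain ⟨s, h1, h2, h3, h4, h5⟩ := out_move S m hmS hm1 (h := h) (by omega) c d
        have h6 := hmax s h1
        have h7 := (ih (h - s) (by omega) d c k').2 (by omega)
        omega
    · intro hk
      have h1 := le_out S hpos hmS (show m ≤ h by omega) c d
      have h2 := (ih (h - m) (by omega) d c k).1 (by omega)
      omega

include hmS hm1 hmax hpos in
/-- The key step: for `k ≥ m - 1 - i` the move `m` is the only optimal move on the heap
`2 m k + m + i`, and the mover on `2 m k + i` gets enough. -/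
theorem key (j : ℕ) : ∀ i, i < m → m - 1 - i = j → ∀ k, j ≤ k → ∀ c d : Conv,
    ((out S c d (2 * (m * k) + m + i)).1 = m + (out S d c (2 * (m * k) + i)).2 ∧
      (out S c d (2 * (m * k) + m + i)).2 = (out S d c (2 * (m * k) + i)).1) ∧
    ∀ s ∈ S, s < m → m * k + i + s + 1 ≤ (out S c d (2 * (m * k) + i)).1 + m := by
  induction j using Nat.strong_induction_on with
  | _ j ih =>
    intro i hi hij k hk c d
    constructor
    · set h := 2 * (m * k) + m + i with hh
      obtain ⟨s, h1, h2, h3, h4, h5⟩ := out_move S m hmS hm1 (h := h) (by omega) c d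
      have h6 := hmax s h1
      have hm0 := le_out S hpos hmS (show m ≤ h by omega) c d
      have hlow := (lower S m hmS hm1 hmax hpos (h - m) d c k).1 (by omega)
      rcases eq_or_lt_of_le h6 with hsm | hsm
      · subst hsm
        have e : h - s = 2 * (s * k) + i := by omega
        rw [e] at h4 h5
        exact ⟨h4, h5⟩
      · exfalso
        rcases le_or_gt s i with hsi | hsi
        · have a1 := (lower S m hmS hm1 hmax hpos (h - s) d c k).2 (by omega)
          have a2 := total S (h - s) d c
          omega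
        · have a1 := (ih (m - 1 - (i + (m - s))) (by omega) (i + (m - s)) (by omega) rfl k
            (by omega) d c).2 s h1 hsm
          have a2 := total S (2 * (m * k) + (i + (m - s))) d c
          have e : h - s = 2 * (m * k) + (i + (m - s)) := by omega
          rw [e] at h4
          omega
    · intro s hs hsm
      have hs1 := hpos s hs
      rcases le_or_gt s i with hsi | hsi
      · have a1 := le_out S hpos hs (show s ≤ 2 * (m * k) + i by omega) c d
        have a2 := (lower S m hmS hm1 hmax hpos (2 * (m * k) + i - s) d c k).1 (by omega)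
        omega
      · obtain ⟨k', rfl⟩ : ∃ k', k = k' + 1 := ⟨k - 1, by omega⟩
        rw [Nat.mul_succ]
        have a1 := le_out S hpos hs (show s ≤ 2 * (m * k' + m) + i by omega) c d
        have e : 2 * (m * k' + m) + i - s = 2 * (m * k') + m + (i + (m - s)) := by omega
        rw [e] at a1
        have a2 := (ih (m - 1 - (i + (m - s))) (by omega) (i + (m - s)) (by omega) rfl k'
          (by omega) d c).1.2
        have a3 := (ih (m - 1 - (i + (m - s))) (by omega) (i + (m - s)) (by omega) rfl k'
          (by omega) c d).2 s hs hsm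
        omega

include hmS hm1 hmax hpos in
/-- The key step in a convenient form. -/
theorem odd_step {i k : ℕ} (hi : i < m) (hk : m ≤ k) (c d : Conv) :
    out S c d (2 * (m * k) + m + i) =
      (m + (out S d c (2 * (m * k) + i)).2, (out S d c (2 * (m * k) + i)).1) := by
  have h := (key S m hmS hm1 hmax hpos (m - 1 - i) i hi rfl k (by omega) c d).1
  exact Prod.ext h.1 h.2

end

/-- A monotone bounded sequence is eventually constant. -/
theorem mono_const (f : ℕ → ℕ) (B K : ℕ) (hB : ∀ k, K ≤ k → f k ≤ B)
    (hf : ∀ k, K ≤ k → f k ≤ f (k + 1)) : ∃ K', K ≤ K' ∧ ∀ k, K' ≤ k → f (k + 1) = f k := by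
  have hmono : ∀ k, K ≤ k → ∀ l, f k ≤ f (k + l) := by
    intro k hk l
    induction l with
    | zero => simp
    | succ l ih => exact le_trans ih (hf (k + l) (by omega))
  have hne : {b : ℕ | ∃ k, K ≤ k ∧ B - f k = b}.Nonempty := ⟨_, K, le_rfl, rfl⟩
  obtain ⟨K', h1, h2⟩ := Nat.sInf_mem hne
  refine ⟨K', h1, fun k hk => ?_⟩
  have a1 := hmono K' h1 (k - K')
  have a2 := hmono K' h1 (k + 1 - K')
  rw [show K' + (k - K') = k by omega] at a1
  rw [show K' + (k + 1 - K') = k + 1 by omega] at a2
  have b1 : sInf {b : ℕ | ∃ k, K ≤ k ∧ B - f k = b} ≤ B - f k :=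
    Nat.sInf_le ⟨k, by omega, rfl⟩
  have b2 : sInf {b : ℕ | ∃ k, K ≤ k ∧ B - f k = b} ≤ B - f (k + 1) :=
    Nat.sInf_le ⟨k + 1, by omega, rfl⟩
  have c1 := hB k (by omega)
  have c2 := hB (k + 1) (by omega)
  have c3 := hB K' h1
  omega

section

variable (S : Finset ℕ) (m : ℕ) (hmS : m ∈ S) (hm1 : 1 ≤ m) (hmax : ∀ s ∈ S, s ≤ m)
  (hpos : ∀ s ∈ S, 1 ≤ s)

include hmS hm1 hmax hpos in
/-- The total of the mover on the heaps `2 m k + i`. -/
theorem even_first {i : ℕ} (hi : i < m) (c d : Conv) : ∃ K, m ≤ K ∧ ∀ k, K ≤ k →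
    (out S c d (2 * (m * (k + 1)) + i)).1 = (out S c d (2 * (m * k) + i)).1 + m := by
  have b : ∀ k, m * k ≤ (out S c d (2 * (m * k) + i)).1 := by
    intro k
    rcases Nat.eq_zero_or_pos k with h0 | h0
    · subst h0
      simp
    · obtain ⟨k', rfl⟩ : ∃ k', k = k' + 1 := ⟨k - 1, by omega⟩
      have := (lower S m hmS hm1 hmax hpos (2 * (m * (k' + 1)) + i) c d k').2 (by
        rw [Nat.mul_succ]; omega)
      rw [Nat.mul_succ] at this ⊢
      omega
  obtain ⟨K, h1, h2⟩ := mono_const
    (fun k => (out S c d (2 * (m * k) + i)).1 - m * k) i m (by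
      intro k hk
      have a1 := total S (2 * (m * k) + i) c d
      have a2 := (lower S m hmS hm1 hmax hpos (2 * (m * k) + i) c d k).1 (by omega)
      omega) (by
      intro k hk
      have a1 := le_out S hpos hmS (show m ≤ 2 * (m * (k + 1)) + i by
        rw [Nat.mul_succ]; omega) c d
      have e : 2 * (m * (k + 1)) + i - m = 2 * (m * k) + m + i := by
        rw [Nat.mul_succ]; omega
      rw [e, odd_step S m hmS hm1 hmax hpos hi hk d c] at a1
      have e2 : m * (k + 1) = m * k + m := Nat.mul_succ m k
      simp only at a1 ⊢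
      omega)
  refine ⟨K, h1, fun k hk => ?_⟩
  have a0 := h2 k hk
  have b1 := b k
  have b2 := b (k + 1)
  have e2 : m * (k + 1) = m * k + m := Nat.mul_succ m k
  omega

include hmS hm1 hmax hpos in
/-- Both totals on the heaps `2 m k + i`. -/
theorem even_both {i : ℕ} (hi : i < m) (c d : Conv) : ∃ K, m ≤ K ∧ ∀ k, K ≤ k →
    out S c d (2 * (m * (k + 1)) + i) =
      ((out S c d (2 * (m * k) + i)).1 + m, (out S c d (2 * (m * k) + i)).2 + m) := by
  obtain ⟨K, h1, h2⟩ := even_first S m hmS hm1 hmax hpos hi c d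
  have ht : ∀ k, K ≤ k →
      (c = Conv.F → m + (out S c d (2 * (m * k) + i)).2 ≤
        (out S c d (2 * (m * (k + 1)) + i)).2) ∧
      (c = Conv.A → (out S c d (2 * (m * (k + 1)) + i)).2 ≤
        m + (out S c d (2 * (m * k) + i)).2) := by
    intro k hk
    have e : 2 * (m * (k + 1)) + i - m = 2 * (m * k) + m + i := by
      rw [Nat.mul_succ]; omega
    have o := odd_step S m hmS hm1 hmax hpos hi (show m ≤ k by omega) d c
    have h3 := tie S hpos hmS (show m ≤ 2 * (m * (k + 1)) + i by
      rw [Nat.mul_succ]; omega) c d (by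
        rw [e, o, h2 k hk]
        simp only
        omega)
    rw [e, o] at h3
    exact h3
  have hb : ∀ k, m * k ≤ (out S c d (2 * (m * k) + i)).2 ∧
      (out S c d (2 * (m * k) + i)).2 ≤ m * k + i + m := by
    intro k
    have a1 := total S (2 * (m * k) + i) c d
    have a2 := (lower S m hmS hm1 hmax hpos (2 * (m * k) + i) c d k).1 (by omega)
    refine ⟨a2, ?_⟩
    rcases Nat.eq_zero_or_pos k with h0 | h0
    · subst h0
      simp only [Nat.mul_zero] at a1 ⊢
      omega
    · obtain ⟨k', rfl⟩ : ∃ k', k = k' + 1 := ⟨k - 1, by omega⟩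
      have e2 : m * (k' + 1) = m * k' + m := Nat.mul_succ m k'
      have := (lower S m hmS hm1 hmax hpos (2 * (m * (k' + 1)) + i) c d k').2 (by omega)
      omega
  cases c
  · obtain ⟨K', h3, h4⟩ := mono_const
      (fun k => (out S Conv.F d (2 * (m * k) + i)).2 - m * k) (i + m) K (by
        intro k hk
        have := hb k
        omega) (by
        intro k hk
        have a1 := (ht k hk).1 rfl
        have e2 : m * (k + 1) = m * k + m := Nat.mul_succ m k
        omega)
    refine ⟨K', by omega, fun k hk => Prod.ext (h2 k (by omega)) ?_⟩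
    have a0 := h4 k hk
    have a1 := hb k
    have a2 := hb (k + 1)
    have e2 : m * (k + 1) = m * k + m := Nat.mul_succ m k
    simp only at a0 ⊢
    omega
  · obtain ⟨K', h3, h4⟩ := mono_const
      (fun k => i + m + m * k - (out S Conv.A d (2 * (m * k) + i)).2) (i + m) K (by
        intro k hk
        have := hb k
        omega) (by
        intro k hk
        have a1 := (ht k hk).2 rfl
        have e2 : m * (k + 1) = m * k + m := Nat.mul_succ m k
        omega)
    refine ⟨K', by omega, fun k hk => Prod.ext (h2 k (by omega)) ?_⟩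
    have a0 := h4 k hk
    have a1 := hb k
    have a2 := hb (k + 1)
    have e2 : m * (k + 1) = m * k + m := Nat.mul_succ m k
    simp only at a0 ⊢
    omega

include hmS hm1 hmax hpos in
/-- The main statement for `m`. -/
theorem main : ∃ h₀ : ℕ, ∀ h, h₀ ≤ h → ∀ c d : Conv,
    out S c d h = (m + (out S d c (h - m)).2, (out S d c (h - m)).1) ∧
    out S c d (h + 2 * m) = ((out S c d h).1 + m, (out S c d h).2 + m) := by
  have h1 : ∀ x : Fin m × Conv × Conv, ∀ᶠ k : ℕ in Filter.atTop,
      out S x.2.1 x.2.2 (2 * (m * (k + 1)) + x.1) =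
        ((out S x.2.1 x.2.2 (2 * (m * k) + x.1)).1 + m,
          (out S x.2.1 x.2.2 (2 * (m * k) + x.1)).2 + m) := by
    intro x
    obtain ⟨K, -, hK⟩ := even_both S m hmS hm1 hmax hpos x.1.2 x.2.1 x.2.2
    exact Filter.eventually_atTop.2 ⟨K, hK⟩
  obtain ⟨K, hK⟩ := Filter.eventually_atTop.1 (Filter.eventually_all.2 h1)
  have hE : ∀ i, i < m → ∀ k, K + m ≤ k → ∀ c d : Conv,
      out S c d (2 * (m * (k + 1)) + i) =
        ((out S c d (2 * (m * k) + i)).1 + m, (out S c d (2 * (m * k) + i)).2 + m) :=
    fun i hi k hk c d => hK k (by omega) (⟨i, hi⟩, c, d)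
  have hO : ∀ i, i < m → ∀ k, K + m ≤ k → ∀ c d : Conv, out S c d (2 * (m * k) + m + i) =
      (m + (out S d c (2 * (m * k) + i)).2, (out S d c (2 * (m * k) + i)).1) :=
    fun i hi k hk c d => odd_step S m hmS hm1 hmax hpos hi (by omega) c d
  refine ⟨2 * m * (K + m + 1), fun h hh c d => ?_⟩
  have hk1 : K + m + 1 ≤ h / (2 * m) := (Nat.le_div_iff_mul_le (by omega)).2 (by
    rw [mul_comm]; exact hh)
  have hdm := Nat.div_add_mod h (2 * m)
  have hlt := Nat.mod_lt h (show 0 < 2 * m by omega)
  obtain ⟨k, hk⟩ : ∃ k, h / (2 * m) = k + 1 := ⟨h / (2 * m) - 1, by omega⟩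
  rw [hk] at hdm hk1
  have hdm' : 2 * (m * (k + 1)) + h % (2 * m) = h := by
    rw [← mul_assoc]; exact hdm
  generalize h % (2 * m) = j at hdm' hlt
  clear hdm
  have e0 : m * (k + 1) = m * k + m := Nat.mul_succ m k
  have e1 : m * (k + 1 + 1) = m * (k + 1) + m := Nat.mul_succ m (k + 1)
  rcases lt_or_ge j m with hjm | hjm
  · have a1 := hE j hjm k (by omega) c d
    have a2 := hE j hjm (k + 1) (by omega) c d
    have a3 := hO j hjm k (by omega) d c
    rw [show h + 2 * m = 2 * (m * (k + 1 + 1)) + j by omega,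
      show h - m = 2 * (m * k) + m + j by omega, ← hdm']
    refine ⟨?_, a2⟩
    rw [a1, a3]
    exact Prod.ext (by simp only; omega) (by simp only; omega)
  · obtain ⟨i, rfl⟩ : ∃ i, j = m + i := ⟨j - m, by omega⟩
    have him : i < m := by omega
    have a1 := hO i him (k + 1) (by omega) c d
    have a2 := hO i him (k + 1 + 1) (by omega) c d
    have a3 := hE i him (k + 1) (by omega) d c
    have eh : h = 2 * (m * (k + 1)) + m + i := by omega
    rw [show h + 2 * m = 2 * (m * (k + 1 + 1)) + m + i by omega,
      show h - m = 2 * (m * (k + 1)) + i by omega, eh]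
    refine ⟨a1, ?_⟩
    rw [a2, a1, a3]
    exact Prod.ext (by simp only; omega) (by simp only)

end

/-- For every finite nonempty set `S` of positive integers with `m = max S` there is `h₀` such
that for all heap sizes `h ≥ h₀`:
(1) for all tie-breaking settings the move `m` is a choice of the player to move, and both totals
at `h + 2 m` are those at `h` plus `m`;
(2) in particular the discrepancies `o_A - o_F` of both players are the same at `h + 2 m` and
at `h`. -/
theorem result (S : Finset ℕ) (hS : S.Nonempty) (hpos : ∀ s ∈ S, 1 ≤ s) :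
    ∃ h₀ : ℕ, ∀ h, h₀ ≤ h →
      (∀ c d : Conv,
        out S c d h = (S.max' hS + (out S d c (h - S.max' hS)).2,
          (out S d c (h - S.max' hS)).1) ∧
        out S c d (h + 2 * S.max' hS) =
          ((out S c d h).1 + S.max' hS, (out S c d h).2 + S.max' hS)) ∧
      ((out S Conv.A Conv.A (h + 2 * S.max' hS)).1 : ℤ) -
          (out S Conv.F Conv.F (h + 2 * S.max' hS)).1 =
        (out S Conv.A Conv.A h).1 - (out S Conv.F Conv.F h).1 ∧
      ((out S Conv.A Conv.A (h + 2 * S.max' hS)).2 : ℤ) -
          (out S Conv.F Conv.F (h + 2 * S.max' hS)).2 =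
        (out S Conv.A Conv.A h).2 - (out S Conv.F Conv.F h).2 := by
  have hM := S.max'_mem hS
  obtain ⟨h₀, H⟩ := main S (S.max' hS) hM (hpos _ hM) (fun s hs => S.le_max' s hs) hpos
  refine ⟨h₀, fun h hh => ⟨fun c d => H h hh c d, ?_, ?_⟩⟩
  · rw [(H h hh Conv.A Conv.A).2, (H h hh Conv.F Conv.F).2]
    push_cast
    ring
  · rw [(H h hh Conv.A Conv.A).2, (H h hh Conv.F Conv.F).2]
    push_cast
    ring

end Pool.Agent.Results.MP_e9de46_co.PeriodTwoMaxH29
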